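import Mathlib

set_option autoImplicit false

namespace Pool.Agent.Results.MP_70eb0a_al.DicyclicCounterexample

open MonoidAlgebra

theorem den_mul {p : ℕ} [hp : Fact p.Prime] {a b : ℚ} (ha : ¬ p ∣ a.den) (hb : ¬ p ∣ b.den) :
    ¬ p ∣ (a * b).den := by
  intro h
  have h1 : p ∣ a.den * b.den := h.trans (Rat.mul_den_dvd a b)
  rcases (Nat.Prime.dvd_mul hp.out).1 h1 with h2 | h2
  · exact ha h2
  · exact hb h2

theorem den_add {p : ℕ} [hp : Fact p.Prime] {a b : ℚ} (ha : ¬ p ∣ a.den) (hb : ¬ p ∣ b.den) :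
    ¬ p ∣ (a + b).den := by
  intro h
  have h1 : p ∣ a.den * b.den := h.trans (Rat.add_den_dvd a b)
  rcases (Nat.Prime.dvd_mul hp.out).1 h1 with h2 | h2
  · exact ha h2
  · exact hb h2

theorem den_one {p : ℕ} [hp : Fact p.Prime] : ¬ p ∣ (1 : ℚ).den := by
  intro h
  have : p ∣ 1 := by simpa using h
  exact hp.out.one_lt.ne' (Nat.dvd_one.1 this)

theorem den_zero {p : ℕ} [hp : Fact p.Prime] : ¬ p ∣ (0 : ℚ).den := by
  intro h
  have : p ∣ 1 := by simpa using h
  exact hp.out.one_lt.ne' (Nat.dvd_one.1 this)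

theorem den_neg {p : ℕ} {a : ℚ} (ha : ¬ p ∣ a.den) : ¬ p ∣ (-a).den := by
  intro h
  exact ha (by simpa using h)

/-- `Z_(p)`: the subring of `ℚ` of all rationals whose (reduced) denominator is not divisible
by `p`. -/
def zLoc (p : ℕ) [Fact p.Prime] : Subring ℚ where
  carrier := {q | ¬ p ∣ q.den}
  mul_mem' := den_mul
  one_mem' := den_one
  add_mem' := den_add
  zero_mem' := den_zero
  neg_mem' := den_neg

theorem mem_zLoc {p : ℕ} [hp : Fact p.Prime] {q : ℚ} : q ∈ zLoc p ↔ ¬ p ∣ q.den := Iff.rfl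

/-- A submodule `K` of `M` is superfluous (small) if `N + K = M` forces `N = M`. -/
def IsSuperfluous {R M : Type} [Ring R] [AddCommGroup M] [Module R M]
    (K : Submodule R M) : Prop :=
  ∀ N : Submodule R M, N ⊔ K = ⊤ → N = ⊤

/-- `M` has a projective cover: a surjection `π : P → M` from a projective module with
superfluous kernel. -/
def HasProjectiveCover (R M : Type) [Ring R] [AddCommGroup M] [Module R M] : Prop :=
  ∃ (P : Type) (_ : AddCommGroup P) (_ : Module R P) (π : P →ₗ[R] M),
    Module.Projective R P ∧ Function.Surjective π ∧ IsSuperfluous (LinearMap.ker π)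

/-- A ring is semiperfect if every finitely generated left module has a projective cover. -/
def IsSemiperfect (R : Type) [Ring R] : Prop :=
  ∀ (M : Type) [AddCommGroup M] [Module R M], Module.Finite R M → HasProjectiveCover R M

/-- A finitely generated left `R`-module. -/
structure FGMod (R : Type) [Ring R] where
  /-- the underlying type -/
  carrier : Type
  [grp : AddCommGroup carrier]
  [mod : Module R carrier]
  [fin : Module.Finite R carrier]

attribute [instance] FGMod.grp FGMod.mod FGMod.fin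

/-- There is a short exact sequence `0 → A → B → C → 0`. -/
def IsShortExact {R : Type} [Ring R] (A B C : FGMod R) : Prop :=
  ∃ (f : A.carrier →ₗ[R] B.carrier) (g : B.carrier →ₗ[R] C.carrier),
    Function.Injective f ∧ Function.Exact f g ∧ Function.Surjective g

/-- The relations `[B] = [A] + [C]`. -/
def g0Relations (R : Type) [Ring R] : AddSubgroup (FreeAbelianGroup (FGMod R)) :=
  AddSubgroup.closure {x | ∃ A B C : FGMod R, IsShortExact A B C ∧
    x = FreeAbelianGroup.of B - FreeAbelianGroup.of A - FreeAbelianGroup.of C}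

/-- The Grothendieck group `G_0(R)` of finitely generated left `R`-modules. -/
def G0 (R : Type) [Ring R] : Type 1 := FreeAbelianGroup (FGMod R) ⧸ g0Relations R

instance instAddCommGroupG0 (R : Type) [Ring R] : AddCommGroup (G0 R) :=
  QuotientAddGroup.Quotient.addCommGroup (g0Relations R)

/-- The class `[M]` in `G_0(R)`. -/
def cls {R : Type} [Ring R] (M : FGMod R) : G0 R :=
  (QuotientAddGroup.mk (FreeAbelianGroup.of M) : FreeAbelianGroup (FGMod R) ⧸ g0Relations R)

/-- `L` is a `Z_(p)G`-lattice of the `ℚG`-module `V`: a `G`-stable `Z_(p)`-submodule that is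
finitely generated over `Z_(p)` and spans `V` over `ℚ`. -/
def IsLattice (p : ℕ) [Fact p.Prime] (G : Type) [Group G] (V : Type) [AddCommGroup V]
    [Module ℚ V] [Module (MonoidAlgebra ℚ G) V] (L : Submodule (zLoc p) V) : Prop :=
  (∀ (g : G), ∀ v ∈ L, (MonoidAlgebra.single g 1 : MonoidAlgebra ℚ G) • v ∈ L) ∧ L.FG ∧
    Submodule.span ℚ (L : Set V) = ⊤

/-- The function `φ` restricts to a surjective additive `G`-equivariant map `L → M` with kernel
`pL`, that is, it induces an isomorphism `L/pL ≅ M` of `F_pG`-modules. (The values of `φ`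
outside `L` are irrelevant.) -/
def IsReductionMap (p : ℕ) (G : Type) [Group G] (V : Type) [AddCommGroup V]
    [Module (MonoidAlgebra ℚ G) V] (M : Type) [AddCommGroup M]
    [Module (MonoidAlgebra (ZMod p) G) M] (L : Set V) (φ : V → M) : Prop :=
  (∀ v ∈ L, ∀ w ∈ L, φ (v + w) = φ v + φ w) ∧
    (∀ (g : G), ∀ v ∈ L, φ ((MonoidAlgebra.single g 1 : MonoidAlgebra ℚ G) • v) =
      (MonoidAlgebra.single g 1 : MonoidAlgebra (ZMod p) G) • φ v) ∧
    (∀ m : M, ∃ v ∈ L, φ v = m) ∧
    (∀ v ∈ L, φ v = 0 ↔ ∃ w ∈ L, v = p • w)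

/-- `M` is isomorphic, as an `F_pG`-module, to the reduction `L/pL` of `V` for some
`Z_(p)G`-lattice `L` of `V`. -/
def IsReduction (p : ℕ) [Fact p.Prime] (G : Type) [Group G] (V : Type) [AddCommGroup V]
    [Module ℚ V] [Module (MonoidAlgebra ℚ G) V]
    (M : Type) [AddCommGroup M] [Module (MonoidAlgebra (ZMod p) G) M] : Prop :=
  ∃ L : Submodule (zLoc p) V, IsLattice p G V L ∧ ∃ φ : V → M, IsReductionMap p G V M L φ

/-- The set `X` of the classes in `G_0(F_pG)` of the reductions of the simple `ℚG`-modules. -/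
def reductionClasses (p : ℕ) [Fact p.Prime] (G : Type) [Group G] :
    Set (G0 (MonoidAlgebra (ZMod p) G)) :=
  {x | ∃ (V : Type) (_ : AddCommGroup V) (_ : Module ℚ V) (_ : Module (MonoidAlgebra ℚ G) V),
    IsScalarTower ℚ (MonoidAlgebra ℚ G) V ∧ IsSimpleModule (MonoidAlgebra ℚ G) V ∧
      ∃ M : FGMod (MonoidAlgebra (ZMod p) G), IsReduction p G V M.carrier ∧ x = cls M}

/-- `P` is a projective indecomposable module (f.g. modules only are considered). -/
def IsPIM {R : Type} [Ring R] (P : FGMod R) : Prop :=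
  Module.Projective R P.carrier ∧ Nontrivial P.carrier ∧
    ∀ A B : Submodule R P.carrier, IsCompl A B → A = ⊥ ∨ B = ⊥

/-- Condition (N): the class of every projective indecomposable `F_pG`-module is a finite sum,
with non-negative integer coefficients, of classes of reductions of simple `ℚG`-modules. -/
def ConditionN (p : ℕ) [Fact p.Prime] (G : Type) [Group G] : Prop :=
  ∀ P : FGMod (MonoidAlgebra (ZMod p) G), IsPIM P →
    cls P ∈ AddSubmonoid.closure (reductionClasses p G)


section G0Lemmas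

variable {R : Type} [Ring R]

theorem cls_exact {A B C : FGMod R} (h : IsShortExact A B C) : cls B = cls A + cls C := by
  have h1 : (QuotientAddGroup.mk (FreeAbelianGroup.of B - FreeAbelianGroup.of A -
      FreeAbelianGroup.of C) : FreeAbelianGroup (FGMod R) ⧸ g0Relations R) = 0 := by
    rw [QuotientAddGroup.eq_zero_iff]
    exact AddSubgroup.subset_closure ⟨A, B, C, h, rfl⟩
  have h2 : cls B - cls A - cls C = 0 := h1
  rw [sub_sub, sub_eq_zero] at h2
  exact h2

theorem cls_zero (M : FGMod R) (hM : Subsingleton M.carrier) : cls M = 0 := by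
  have h : IsShortExact M M M :=
    ⟨LinearMap.id, LinearMap.id, Function.injective_id,
      fun y => ⟨fun _ => ⟨y, rfl⟩, fun _ => Subsingleton.elim _ _⟩, Function.surjective_id⟩
  have h1 := cls_exact h
  simpa using h1

theorem cls_mem_of_simple [Finite R] (S : AddSubmonoid (G0 R))
    (h : ∀ M : FGMod R, IsSimpleModule R M.carrier → cls M ∈ S) :
    ∀ M : FGMod R, cls M ∈ S := by
  have key : ∀ n : ℕ, ∀ M : FGMod R, Nat.card M.carrier ≤ n → cls M ∈ S := by
    intro n
    induction n with
    | zero =>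
      intro M hM
      have : Finite M.carrier := Module.finite_of_finite R
      have : 0 < Nat.card M.carrier := Nat.card_pos
      omega
    | succ n ih =>
      intro M hM
      have : Finite M.carrier := Module.finite_of_finite R
      rcases subsingleton_or_nontrivial M.carrier with hs | hn
      · rw [cls_zero M hs]
        exact S.zero_mem
      · have : Finite (Submodule R M.carrier) :=
          Finite.of_injective (fun N : Submodule R M.carrier => (N : Set M.carrier))
            SetLike.coe_injective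
        obtain ⟨N, hN, -⟩ := (eq_bot_or_exists_atom_le (⊤ : Submodule R M.carrier)).resolve_left
          (by exact top_ne_bot)
        have hNs : IsSimpleModule R N := isSimpleModule_iff_isAtom.2 hN
        let A : FGMod R := { carrier := N }
        let C : FGMod R := { carrier := M.carrier ⧸ N }
        have hex : IsShortExact A M C :=
          ⟨N.subtype, N.mkQ, N.subtype_injective, LinearMap.exact_subtype_mkQ N,
            N.mkQ_surjective⟩
        rw [cls_exact hex]
        refine S.add_mem (h A hNs) (ih C ?_)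
        have hcard : Nat.card M.carrier = Nat.card N * Nat.card (M.carrier ⧸ N) :=
          Submodule.card_eq_card_quotient_mul_card N
        have h1 : 1 < Nat.card N := by
          have : Nontrivial N := hNs.nontrivial
          exact Finite.one_lt_card
        have hfin : Finite (M.carrier ⧸ N) := Finite.of_surjective _ N.mkQ_surjective
        have h2 : 0 < Nat.card (M.carrier ⧸ N) := Nat.card_pos
        change Nat.card (M.carrier ⧸ N) ≤ n
        nlinarith
  exact fun M => key _ M le_rfl

end G0Lemmas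


section Std

open Matrix

variable {G : Type} [Group G] {n : ℕ}

/-- `K^n` with the `KG`-module structure given by an integral matrix representation of `G`. -/
def StdMod (K : Type) [Field K] (ρ : G →* Matrix (Fin n) (Fin n) ℤ) : Type :=
  let _ := ρ
  Fin n → K

variable (K : Type) [Field K] (ρ : G →* Matrix (Fin n) (Fin n) ℤ)

instance : AddCommGroup (StdMod K ρ) := inferInstanceAs (AddCommGroup (Fin n → K))
instance : Module K (StdMod K ρ) := inferInstanceAs (Module K (Fin n → K))

/-- The associated monoid homomorphism to matrices over `K`. -/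
def stdMat : G →* Matrix (Fin n) (Fin n) K :=
  ((Int.castRingHom K).mapMatrix : Matrix (Fin n) (Fin n) ℤ →+* Matrix (Fin n) (Fin n) K).toMonoidHom.comp ρ

/-- The associated algebra homomorphism. -/
noncomputable def stdHom : MonoidAlgebra K G →ₐ[K] Matrix (Fin n) (Fin n) K :=
  MonoidAlgebra.lift K (Matrix (Fin n) (Fin n) K) G (stdMat K ρ)

noncomputable instance : Module (MonoidAlgebra K G) (StdMod K ρ) :=
  Module.compHom (Fin n → K)
    ((Matrix.toLinAlgEquiv' : Matrix (Fin n) (Fin n) K ≃ₐ[K] _).toAlgHom.comp (stdHom K ρ)).toRingHom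


theorem std_of_smul (g : G) (v : StdMod K ρ) :
    (MonoidAlgebra.of K G g • v : StdMod K ρ) = (stdMat K ρ g *ᵥ (v : Fin n → K) : Fin n → K) := by
  change (((Matrix.toLinAlgEquiv' : Matrix (Fin n) (Fin n) K ≃ₐ[K] _).toAlgHom.comp
    (stdHom K ρ)) (MonoidAlgebra.of K G g)) v = _
  simp only [stdHom, AlgHom.comp_apply, MonoidAlgebra.lift_of]
  exact Matrix.toLin'_apply _ _

instance : IsScalarTower K (MonoidAlgebra K G) (StdMod K ρ) where
  smul_assoc c x v := by
    change (((Matrix.toLinAlgEquiv' : Matrix (Fin n) (Fin n) K ≃ₐ[K] _).toAlgHom.comp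
      (stdHom K ρ)) (c • x)) v = c • (((Matrix.toLinAlgEquiv' :
        Matrix (Fin n) (Fin n) K ≃ₐ[K] _).toAlgHom.comp (stdHom K ρ)) x) v
    rw [map_smul]
    rfl

theorem std_add_apply (v w : StdMod K ρ) (i : Fin n) :
    ((v + w : StdMod K ρ) : Fin n → K) i = (v : Fin n → K) i + (w : Fin n → K) i := rfl

/-- A vector as an element of `StdMod K ρ`. -/
def toStd (u : Fin n → K) : StdMod K ρ := u

theorem of_smul_toStd (g : G) (u : Fin n → K) :
    MonoidAlgebra.of K G g • toStd K ρ u = toStd K ρ (stdMat K ρ g *ᵥ u) :=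
  std_of_smul K ρ g (toStd K ρ u)

theorem smul_toStd (c : K) (u : Fin n → K) : c • toStd K ρ u = toStd K ρ (c • u) := rfl

theorem add_toStd (u w : Fin n → K) : toStd K ρ u + toStd K ρ w = toStd K ρ (u + w) := rfl

theorem stdMat_apply (g : G) (i j : Fin n) : stdMat K ρ g i j = ((ρ g i j : ℤ) : K) := rfl

theorem std_smul_apply (c : K) (v : StdMod K ρ) (i : Fin n) :
    ((c • v : StdMod K ρ) : Fin n → K) i = c * (v : Fin n → K) i := rfl

end Std

section Residue

variable {p : ℕ} [hp : Fact p.Prime]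

theorem den_ne_zero {q : ℚ} (hq : q ∈ zLoc p) : (q.den : ZMod p) ≠ 0 := by
  intro h
  exact hq ((ZMod.natCast_eq_zero_iff _ _).1 h)

theorem intCast_mem_zLoc (m : ℤ) : (m : ℚ) ∈ zLoc p := intCast_mem (zLoc p) m

theorem div_mem_zLoc {a b : ℤ} (hb : ¬ (p : ℤ) ∣ b) : (a / b : ℚ) ∈ zLoc p := by
  intro h
  have h1 : ((a / b : ℚ).den : ℤ) ∣ b := by
    rw [← Rat.divInt_eq_div]
    exact Rat.den_dvd a b
  exact hb ((Int.natCast_dvd_natCast.2 h).trans h1)

/-- the residue map -/
def res (p : ℕ) [hp : Fact p.Prime] : zLoc p →+* ZMod p where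
  toFun q := ((q : ℚ) : ZMod p)
  map_one' := by simp
  map_zero' := by simp
  map_add' a b := Rat.cast_add_of_ne_zero (den_ne_zero a.2) (den_ne_zero b.2)
  map_mul' a b := Rat.cast_mul_of_ne_zero (den_ne_zero a.2) (den_ne_zero b.2)

theorem res_surj (a : ZMod p) : ∃ m : ℤ, ((m : ℚ) : ZMod p) = a := by
  obtain ⟨m, hm⟩ := ZMod.intCast_surjective a
  exact ⟨m, by simpa using hm⟩

theorem res_eq_zero {q : ℚ} (hq : q ∈ zLoc p) : ((q : ℚ) : ZMod p) = 0 ↔ ∃ w ∈ zLoc p, q = p * w := by
  constructor
  · intro h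
    rw [Rat.cast_def] at h
    have h1 : (q.num : ZMod p) = 0 := by
      rcases div_eq_zero_iff.1 h with h | h
      · exact h
      · exact absurd h (den_ne_zero hq)
    rw [ZMod.intCast_zmod_eq_zero_iff_dvd] at h1
    obtain ⟨c, hc⟩ := h1
    refine ⟨(c : ℚ) / (q.den : ℤ), div_mem_zLoc (fun h => hq (Int.natCast_dvd_natCast.1 h)), ?_⟩
    have h2 : (q.num : ℚ) / q.den = q := Rat.num_div_den q
    have h3 : (q.num : ℚ) = p * c := by rw [hc]; push_cast; ring
    rw [h3] at h2
    push_cast
    rw [← mul_div_assoc]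
    exact h2.symm
  · rintro ⟨w, hw, rfl⟩
    have h1 : ((p : ℚ)) ∈ zLoc p := natCast_mem (zLoc p) p
    rw [Rat.cast_mul_of_ne_zero (den_ne_zero h1) (den_ne_zero hw)]
    simp

end Residue


section StdReduction

open Matrix

variable {G : Type} [Group G] {n : ℕ} {p : ℕ} [hp : Fact p.Prime]

/-- The standard lattice `Z_(p)^n`. -/
def stdLattice (p : ℕ) [hp : Fact p.Prime] (ρ : G →* Matrix (Fin n) (Fin n) ℤ) :
    Submodule (zLoc p) (StdMod ℚ ρ) where
  carrier := {v | ∀ i, (v : Fin n → ℚ) i ∈ zLoc p}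
  add_mem' := fun ha hb i => (zLoc p).add_mem (ha i) (hb i)
  zero_mem' := fun _ => (zLoc p).zero_mem
  smul_mem' := fun c _ hv i => (zLoc p).mul_mem c.2 (hv i)

theorem stdLattice_isLattice (ρ : G →* Matrix (Fin n) (Fin n) ℤ) :
    IsLattice p G (StdMod ℚ ρ) (stdLattice p ρ) := by
  refine ⟨?_, ?_, ?_⟩
  · intro g v hv i
    change (MonoidAlgebra.of ℚ G g • v : StdMod ℚ ρ) i ∈ zLoc p
    rw [std_of_smul]
    change (∑ j, (stdMat ℚ ρ g) i j * (v : Fin n → ℚ) j) ∈ zLoc p
    refine (zLoc p).sum_mem fun j _ => (zLoc p).mul_mem ?_ (hv j)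
    exact intCast_mem_zLoc _
  · let f : (Fin n → zLoc p) →ₗ[zLoc p] StdMod ℚ ρ :=
      { toFun := fun u => (fun i => (u i : ℚ) : Fin n → ℚ)
        map_add' := fun _ _ => rfl
        map_smul' := fun _ _ => rfl }
    have hf : stdLattice p ρ = LinearMap.range f := by
      ext v
      constructor
      · intro hv
        exact ⟨fun i => ⟨(v : Fin n → ℚ) i, hv i⟩, rfl⟩
      · rintro ⟨u, rfl⟩ i
        exact (u i).2
    rw [hf, LinearMap.range_eq_map]
    exact Module.Finite.fg_top.map f
  · rw [eq_top_iff]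
    intro v _
    have h1 : ∀ u : Fin n → ℚ, u = ∑ i, u i • (Pi.single i (1 : ℚ) : Fin n → ℚ) := by
      intro u
      funext j
      simp [Finset.sum_apply, Pi.single_apply]
    have h2 : (v : StdMod ℚ ρ) = ∑ i, (v : Fin n → ℚ) i • ((Pi.single i (1 : ℚ) : Fin n → ℚ) : StdMod ℚ ρ) := h1 v
    rw [h2]
    refine Submodule.sum_mem _ fun i _ => Submodule.smul_mem _ _ (Submodule.subset_span ?_)
    intro j
    by_cases hij : j = i
    · subst hij
      rw [Pi.single_eq_same]
      exact (zLoc p).one_mem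
    · rw [Pi.single_eq_of_ne hij]
      exact (zLoc p).zero_mem

theorem isReduction_std (ρ : G →* Matrix (Fin n) (Fin n) ℤ) (M : Type) [AddCommGroup M]
    [Module (MonoidAlgebra (ZMod p) G) M] (ψ : (Fin n → ZMod p) →+ M)
    (hb : Function.Bijective ψ)
    (he : ∀ g v, ψ (stdMat (ZMod p) ρ g *ᵥ v) = MonoidAlgebra.of (ZMod p) G g • ψ v) :
    IsReduction p G (StdMod ℚ ρ) M := by
  refine ⟨stdLattice p ρ, stdLattice_isLattice ρ, ?_⟩
  let φ : StdMod ℚ ρ → M := fun v => ψ (fun i => (((v : Fin n → ℚ) i : ℚ) : ZMod p))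
  refine ⟨φ, ?_, ?_, ?_, ?_⟩
  · intro v hv w hw
    change ψ _ = ψ _ + ψ _
    rw [← map_add ψ]
    congr 1
    funext i
    exact map_add (res p) ⟨(v : Fin n → ℚ) i, hv i⟩ ⟨(w : Fin n → ℚ) i, hw i⟩
  · intro g v hv
    change φ (MonoidAlgebra.of ℚ G g • v : StdMod ℚ ρ) = MonoidAlgebra.of (ZMod p) G g • ψ _
    rw [← he, std_of_smul]
    change ψ _ = ψ _
    congr 1
    funext i
    change (((∑ j, (stdMat ℚ ρ g) i j * (v : Fin n → ℚ) j : ℚ)) : ZMod p) =
      ∑ j, (stdMat (ZMod p) ρ g) i j * (((v : Fin n → ℚ) j : ℚ) : ZMod p)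
    have h2 : ((∑ j, (⟨(stdMat ℚ ρ g) i j, intCast_mem_zLoc _⟩ : zLoc p) *
          ⟨(v : Fin n → ℚ) j, hv j⟩ : zLoc p) : ℚ) =
          ∑ j, (stdMat ℚ ρ g) i j * (v : Fin n → ℚ) j := by
      push_cast
      rfl
    rw [← h2]
    change res p _ = _
    rw [map_sum]
    refine Finset.sum_congr rfl fun j _ => ?_
    rw [map_mul]
    congr 1
    change (((((ρ g) i j : ℤ) : ℚ)) : ZMod p) = (((ρ g) i j : ℤ) : ZMod p)
    simp
  · intro m
    obtain ⟨u, rfl⟩ := hb.2 m
    choose k hk using fun i => res_surj (p := p) (u i)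
    refine ⟨(fun i => ((k i : ℤ) : ℚ) : Fin n → ℚ), fun i => intCast_mem_zLoc _, ?_⟩
    change ψ _ = ψ u
    congr 1
    funext i
    exact hk i
  · intro v hv
    constructor
    · intro hv0
      have h1 : (fun i => (((v : Fin n → ℚ) i : ℚ) : ZMod p)) = 0 := by
        apply hb.1
        rw [map_zero]
        exact hv0
      have h2 : ∀ i, ∃ w ∈ zLoc p, (v : Fin n → ℚ) i = p * w := fun i =>
        (res_eq_zero (hv i)).1 (congrFun h1 i)
      choose w hw1 hw2 using h2
      refine ⟨(w : Fin n → ℚ), hw1, ?_⟩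
      change (v : Fin n → ℚ) = p • w
      funext i
      rw [hw2 i]
      simp
    · rintro ⟨w, hw, rfl⟩
      change ψ _ = 0
      rw [← map_zero ψ]
      congr 1
      funext i
      change ((p • ((w : Fin n → ℚ) i) : ℚ) : ZMod p) = 0
      rw [nsmul_eq_mul, res_eq_zero]
      · exact ⟨(w : Fin n → ℚ) i, hw i, rfl⟩
      · exact (zLoc p).mul_mem (natCast_mem (zLoc p) p) (hw i)

end StdReduction


section Dic

open Matrix

/-- The dicyclic group of order 12. -/
abbrev Dic3 : Type := QuaternionGroup 3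

/-- The matrices of the two-dimensional rational representation (inflated from `S_3`). -/
def rho2Fun : Dic3 → Matrix (Fin 2) (Fin 2) ℤ
  | .a i => !![0, -1; 1, -1] ^ (ZMod.val i)
  | .xa i => !![1, -1; 0, -1] * !![0, -1; 1, -1] ^ (ZMod.val i)

set_option maxRecDepth 100000 in
theorem rho2_mul : ∀ g h : Dic3, rho2Fun (g * h) = rho2Fun g * rho2Fun h := by
  decide

/-- The two-dimensional rational representation (inflated from `S_3`). -/
def rho2 : Dic3 →* Matrix (Fin 2) (Fin 2) ℤ where
  toFun := rho2Fun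
  map_one' := by decide
  map_mul' := rho2_mul

/-- The trivial representation. -/
def rho1 : Dic3 →* Matrix (Fin 1) (Fin 1) ℤ := 1

theorem simple_rho1 : IsSimpleModule (MonoidAlgebra ℚ Dic3) (StdMod ℚ rho1) := by
  have : Nontrivial (StdMod ℚ rho1) := inferInstanceAs (Nontrivial (Fin 1 → ℚ))
  have h : IsSimpleOrder (Submodule (MonoidAlgebra ℚ Dic3) (StdMod ℚ rho1)) :=
    { eq_bot_or_eq_top := by
        intro N
        by_cases hN : N = ⊥
        · exact Or.inl hN
        · right
          obtain ⟨v, hv, hv0⟩ := (Submodule.ne_bot_iff N).1 hN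
          rw [eq_top_iff]
          intro w _
          have hv1 : (v : Fin 1 → ℚ) 0 ≠ 0 := by
            intro h0
            apply hv0
            change (v : Fin 1 → ℚ) = 0
            funext i
            fin_cases i
            exact h0
          have hw : w = (((w : Fin 1 → ℚ) 0 / (v : Fin 1 → ℚ) 0) • v : StdMod ℚ rho1) := by
            funext i
            fin_cases i
            change (w : Fin 1 → ℚ) 0 = ((w : Fin 1 → ℚ) 0 / (v : Fin 1 → ℚ) 0) * (v : Fin 1 → ℚ) 0
            field_simp
          rw [hw, ← algebraMap_smul (MonoidAlgebra ℚ Dic3)]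
          exact N.smul_mem _ hv }
  exact (isSimpleModule_iff _ _).2 h


/-- The matrix of the generator `a 1`. -/
def mA (K : Type) [Field K] : Matrix (Fin 2) (Fin 2) K := !![0, -1; 1, -1]

/-- The matrix of the generator `xa 0`. -/
def mX (K : Type) [Field K] : Matrix (Fin 2) (Fin 2) K := !![1, -1; 0, -1]

theorem stdMat_a (K : Type) [Field K] : stdMat K rho2 (QuaternionGroup.a 1) = mA K := by
  have h : rho2 (QuaternionGroup.a 1) = !![0, -1; 1, -1] := by decide
  ext i j
  rw [stdMat_apply, h]
  fin_cases i <;> fin_cases j <;> simp [mA]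

theorem stdMat_x (K : Type) [Field K] : stdMat K rho2 (QuaternionGroup.xa 0) = mX K := by
  have h : rho2 (QuaternionGroup.xa 0) = !![1, -1; 0, -1] := by decide
  ext i j
  rw [stdMat_apply, h]
  fin_cases i <;> fin_cases j <;> simp [mX]

theorem mA_mulVec (K : Type) [Field K] (u : Fin 2 → K) : mA K *ᵥ u = ![- u 1, u 0 - u 1] := by
  funext i
  fin_cases i
  · simp [mA, Matrix.mulVec, dotProduct, Fin.sum_univ_two]
  · simp [mA, Matrix.mulVec, dotProduct, Fin.sum_univ_two]
    ring

theorem mX_mulVec (K : Type) [Field K] (u : Fin 2 → K) : mX K *ᵥ u = ![u 0 - u 1, - u 1] := by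
  funext i
  fin_cases i
  · simp [mX, Matrix.mulVec, dotProduct, Fin.sum_univ_two]
    ring
  · simp [mX, Matrix.mulVec, dotProduct, Fin.sum_univ_two]

theorem simple_rho2 : IsSimpleModule (MonoidAlgebra ℚ Dic3) (StdMod ℚ rho2) := by
  have : Nontrivial (StdMod ℚ rho2) := inferInstanceAs (Nontrivial (Fin 2 → ℚ))
  have h : IsSimpleOrder (Submodule (MonoidAlgebra ℚ Dic3) (StdMod ℚ rho2)) :=
    { eq_bot_or_eq_top := by
        intro N
        by_cases hN : N = ⊥
        · exact Or.inl hN
        · right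
          obtain ⟨v, hv, hv0⟩ := (Submodule.ne_bot_iff N).1 hN
          have hA : ∀ u : Fin 2 → ℚ, toStd ℚ rho2 u ∈ N →
              toStd ℚ rho2 (![- u 1, u 0 - u 1] : Fin 2 → ℚ) ∈ N := by
            intro u hu
            have h1 := N.smul_mem (MonoidAlgebra.of ℚ Dic3 (QuaternionGroup.a 1)) hu
            rwa [of_smul_toStd, stdMat_a, mA_mulVec] at h1
          have hX : ∀ u : Fin 2 → ℚ, toStd ℚ rho2 u ∈ N →
              toStd ℚ rho2 (![u 0 - u 1, - u 1] : Fin 2 → ℚ) ∈ N := by
            intro u hu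
            have h1 := N.smul_mem (MonoidAlgebra.of ℚ Dic3 (QuaternionGroup.xa 0)) hu
            rwa [of_smul_toStd, stdMat_x, mX_mulVec] at h1
          have hs : ∀ (c : ℚ) (u : Fin 2 → ℚ), toStd ℚ rho2 u ∈ N →
              toStd ℚ rho2 (c • u) ∈ N := by
            intro c u hu
            have h1 := N.smul_mem (algebraMap ℚ (MonoidAlgebra ℚ Dic3) c) hu
            rwa [algebraMap_smul, smul_toStd] at h1
          have ha : ∀ (u w : Fin 2 → ℚ), toStd ℚ rho2 u ∈ N → toStd ℚ rho2 w ∈ N →
              toStd ℚ rho2 (u + w) ∈ N := fun u w hu hw => N.add_mem hu hw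
          have hX2 : ∀ u : Fin 2 → ℚ, toStd ℚ rho2 u ∈ N →
              toStd ℚ rho2 (![2 * u 0 - u 1, 0] : Fin 2 → ℚ) ∈ N := by
            intro u hu
            have h1 := ha _ _ hu (hX u hu)
            have h2 : (u + ![u 0 - u 1, - u 1] : Fin 2 → ℚ) = ![2 * u 0 - u 1, 0] := by
              funext i
              fin_cases i
              · change u 0 + (u 0 - u 1) = 2 * u 0 - u 1
                ring
              · change u 1 + - u 1 = 0
                ring
            rwa [h2] at h1
          have he : toStd ℚ rho2 (![1, 0] : Fin 2 → ℚ) ∈ N := by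
            have hc : ∀ c : ℚ, c ≠ 0 → toStd ℚ rho2 (![c, 0] : Fin 2 → ℚ) ∈ N →
                toStd ℚ rho2 (![1, 0] : Fin 2 → ℚ) ∈ N := by
              intro c hc h1
              have h2 := hs c⁻¹ _ h1
              have h3 : (c⁻¹ • ![c, 0] : Fin 2 → ℚ) = ![1, 0] := by
                funext i
                fin_cases i <;> simp [hc]
              rwa [h3] at h2
            let u : Fin 2 → ℚ := v
            have hu : toStd ℚ rho2 u ∈ N := hv
            have hu0 : u ≠ 0 := hv0
            by_cases h1 : 2 * u 0 - u 1 = 0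
            · have h2 := hX2 _ (hA u hu)
              simp only [Matrix.cons_val_zero, Matrix.cons_val_one] at h2
              refine hc _ ?_ h2
              intro h3
              apply hu0
              have h4 : u 0 = 0 := by linarith
              have h5 : u 1 = 0 := by linarith
              funext i
              fin_cases i
              · exact h4
              · exact h5
            · exact hc _ h1 (hX2 u hu)
          have he2 : toStd ℚ rho2 (![0, 1] : Fin 2 → ℚ) ∈ N := by
            have h1 := hA _ he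
            simpa using h1
          rw [eq_top_iff]
          intro w _
          let z : Fin 2 → ℚ := w
          have h1 := ha _ _ (hs (z 0) _ he) (hs (z 1) _ he2)
          have h2 : (z 0 • ![1, 0] + z 1 • ![0, 1] : Fin 2 → ℚ) = z := by
            funext i
            fin_cases i <;> simp
          rw [h2] at h1
          exact h1 }
  exact (isSimpleModule_iff _ _).2 h


theorem dic_gen (P : Dic3 → Prop) (h1 : P 1) (hmul : ∀ g h, P g → P h → P (g * h))
    (ha : P (QuaternionGroup.a 1)) (hx : P (QuaternionGroup.xa 0)) : ∀ g, P g := by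
  have hpow : ∀ k : ℕ, P (QuaternionGroup.a 1 ^ k) := by
    intro k
    induction k with
    | zero => simpa using h1
    | succ k ih =>
      rw [pow_succ]
      exact hmul _ _ ih ha
  have hai : ∀ i, P (QuaternionGroup.a i) := by
    intro i
    have h := hpow i.val
    rw [QuaternionGroup.a_one_pow, ZMod.natCast_zmod_val] at h
    exact h
  intro g
  cases g with
  | a i => exact hai i
  | xa i =>
    have h := hmul _ _ hx (hai i)
    rw [QuaternionGroup.xa_mul_a, zero_add] at h
    exact h

/-- A `G`-equivariant additive map from a standard module onto a simple module. -/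
theorem reduction_of_generators {n : ℕ} (ρ : Dic3 →* Matrix (Fin n) (Fin n) ℤ) (M : Type)
    [AddCommGroup M] [Module (MonoidAlgebra (ZMod 2) Dic3) M]
    [IsSimpleModule (MonoidAlgebra (ZMod 2) Dic3) M]
    (ψ : (Fin n → ZMod 2) →+ M) (hinj : Function.Injective ψ) (hne : ∃ u, ψ u ≠ 0)
    (ha : ∀ v, ψ (stdMat (ZMod 2) ρ (QuaternionGroup.a 1) *ᵥ v) =
      MonoidAlgebra.of (ZMod 2) Dic3 (QuaternionGroup.a 1) • ψ v)
    (hx : ∀ v, ψ (stdMat (ZMod 2) ρ (QuaternionGroup.xa 0) *ᵥ v) =
      MonoidAlgebra.of (ZMod 2) Dic3 (QuaternionGroup.xa 0) • ψ v) :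
    IsReduction 2 Dic3 (StdMod ℚ ρ) M := by
  have he : ∀ g v, ψ (stdMat (ZMod 2) ρ g *ᵥ v) =
      MonoidAlgebra.of (ZMod 2) Dic3 g • ψ v := by
    refine dic_gen _ ?_ ?_ ha hx
    · intro v
      rw [map_one, map_one, one_smul, Matrix.one_mulVec]
    · intro g h hg hh v
      rw [map_mul, map_mul, mul_smul, ← hh v, ← hg, Matrix.mulVec_mulVec]
  have hsurj : Function.Surjective ψ := by
    let N : Submodule (MonoidAlgebra (ZMod 2) Dic3) M :=
      { carrier := Set.range ψ
        add_mem' := by
          rintro _ _ ⟨u, rfl⟩ ⟨w, rfl⟩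
          exact ⟨u + w, map_add ψ u w⟩
        zero_mem' := ⟨0, map_zero ψ⟩
        smul_mem' := by
          rintro c _ ⟨u, rfl⟩
          induction c using MonoidAlgebra.induction_on with
          | of g => exact ⟨_, he g u⟩
          | add c d hc hd =>
            obtain ⟨u1, h1⟩ := hc
            obtain ⟨u2, h2⟩ := hd
            exact ⟨u1 + u2, by rw [map_add, h1, h2, add_smul]⟩
          | smul r c hc =>
            obtain ⟨u1, h1⟩ := hc
            fin_cases r
            · refine ⟨0, ?_⟩
              change ψ 0 = ((0 : ZMod 2) • c) • ψ u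
              rw [zero_smul, zero_smul, map_zero]
            · refine ⟨u1, ?_⟩
              change ψ u1 = ((1 : ZMod 2) • c) • ψ u
              rw [one_smul, h1] }
    have hN : N = ⊤ := by
      rcases eq_bot_or_eq_top N with h | h
      · exfalso
        obtain ⟨u, hu⟩ := hne
        apply hu
        have h1 : ψ u ∈ N := ⟨u, rfl⟩
        rw [h] at h1
        exact (Submodule.mem_bot _).1 h1
      · exact h
    intro m
    have hm : m ∈ N := by rw [hN]; trivial
    exact hm
  exact isReduction_std ρ M ψ ⟨hinj, hsurj⟩ he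


theorem stdMat_rho1 (g : Dic3) : stdMat (ZMod 2) rho1 g = 1 := by
  ext i j
  rw [stdMat_apply]
  fin_cases i
  fin_cases j
  simp [rho1]

theorem simple_is_reduction (M : Type) [AddCommGroup M] [Module (MonoidAlgebra (ZMod 2) Dic3) M]
    [IsSimpleModule (MonoidAlgebra (ZMod 2) Dic3) M] :
    IsReduction 2 Dic3 (StdMod ℚ rho1) M ∨ IsReduction 2 Dic3 (StdMod ℚ rho2) M := by
  let : Module (ZMod 2) M := Module.compHom M (algebraMap (ZMod 2) (MonoidAlgebra (ZMod 2) Dic3))
  have hst : IsScalarTower (ZMod 2) (MonoidAlgebra (ZMod 2) Dic3) M :=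
    ⟨fun c x m => by
      rw [Algebra.smul_def, mul_smul]
      rfl⟩
  have hcomm : ∀ (g : Dic3) (c : ZMod 2) (m : M),
      MonoidAlgebra.of (ZMod 2) Dic3 g • (c • m) = c • (MonoidAlgebra.of (ZMod 2) Dic3 g • m) := by
    intro g c m
    rw [← algebraMap_smul (MonoidAlgebra (ZMod 2) Dic3) c m,
      ← algebraMap_smul (MonoidAlgebra (ZMod 2) Dic3) c
        (MonoidAlgebra.of (ZMod 2) Dic3 g • m), ← mul_smul, ← mul_smul, Algebra.commutes]
  have h2 : ∀ m : M, m + m = 0 := by
    intro m
    have h : ((1 : ZMod 2) + 1) • m = m + m := by rw [add_smul, one_smul]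
    rw [← h]
    have h' : (1 : ZMod 2) + 1 = 0 := by decide
    rw [h', zero_smul]
  obtain ⟨act, hact⟩ : ∃ act : Dic3 → M → M,
      act = fun g m => MonoidAlgebra.of (ZMod 2) Dic3 g • m := ⟨_, rfl⟩
  have act_mul : ∀ g h m, act g (act h m) = act (g * h) m := by
    intro g h m
    simp only [hact]
    rw [map_mul, mul_smul]
  have act_one : ∀ m, act 1 m = m := by
    intro m
    simp only [hact]
    rw [map_one, one_smul]
  have act_add : ∀ g m m', act g (m + m') = act g m + act g m' := by
    intro g m m'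
    simp only [hact]
    rw [smul_add]
  have act_zero : ∀ g, act g 0 = 0 := by
    intro g
    simp only [hact]
    rw [smul_zero]
  -- a nonzero vector fixed by the generator of order four
  obtain ⟨w, hw0, hwx⟩ : ∃ w : M, w ≠ 0 ∧ act (.xa 0) w = w := by
    have hnt : Nontrivial M := IsSimpleModule.nontrivial (MonoidAlgebra (ZMod 2) Dic3) M
    obtain ⟨m, hm⟩ := exists_ne (0 : M)
    have hD : ∀ u : M, act (.xa 0) u + u = 0 → act (.xa 0) u = u := by
      intro u hu
      have h := h2 u
      rw [← h] at hu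
      exact add_right_cancel hu
    by_contra hcon
    push Not at hcon
    have step : ∀ u : M, u ≠ 0 → act (.xa 0) u + u ≠ 0 := fun u hu h => hcon u hu (hD u h)
    have s1 := step m hm
    have s2 := step _ s1
    have s3 := step _ s2
    have s4 := step _ s3
    apply s4
    have e4 : act (.xa 0) (act (.xa 0) (act (.xa 0) (act (.xa 0) m))) = m := by
      rw [act_mul, act_mul, act_mul]
      have : (QuaternionGroup.xa 0 * QuaternionGroup.xa 0 * QuaternionGroup.xa 0 *
        QuaternionGroup.xa 0 : Dic3) = 1 := by decide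
      rw [this, act_one]
    simp only [act_add]
    rw [e4]
    generalize act (.xa 0) (act (.xa 0) (act (.xa 0) m)) = t3
    generalize act (.xa 0) (act (.xa 0) m) = t2
    generalize act (.xa 0) m = t1
    have e : m + t3 + (t3 + t2) + (t3 + t2 + (t2 + t1)) + (t3 + t2 + (t2 + t1) + (t2 + t1 + (t1 + m))) =
      (m + m) + (t3 + t3) + (t3 + t3) + (t2 + t2) + (t2 + t2) + (t2 + t2) + (t1 + t1) + (t1 + t1) := by
      abel
    rw [e]
    simp only [h2]
  have hwz : act (.a 3) w = w := by
    have h : act (.xa 0) (act (.xa 0) w) = act (.a 3) w := by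
      rw [act_mul]
      congr 1
    rw [← h, hwx, hwx]
  obtain ⟨w1, hw1⟩ : ∃ w1, w1 = act (.a 1) w := ⟨_, rfl⟩
  obtain ⟨w2, hw2⟩ : ∃ w2, w2 = act (.a 1) w1 := ⟨_, rfl⟩
  have hA0 : act (.a 1) w = w1 := hw1.symm
  have hA1 : act (.a 1) w1 = w2 := hw2.symm
  have hA2 : act (.a 1) w2 = w := by
    rw [hw2, hw1, act_mul, act_mul]
    exact hwz
  have hX1 : act (.xa 0) w1 = w2 := by
    have h : act (.xa 0) w1 = act (.a 2) (act (.a 3) (act (.xa 0) w)) := by
      rw [hw1, act_mul, act_mul, act_mul]
      congr 1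
    rw [h, hwx, hwz, hw2, hw1, act_mul]
    congr 1
  have hX2 : act (.xa 0) w2 = w1 := by
    have h : act (.xa 0) w2 = act (.a 1) (act (.a 3) (act (.xa 0) w)) := by
      rw [hw2, hw1, act_mul, act_mul, act_mul, act_mul]
      congr 1
    rw [h, hwx, hwz, hw1]
  have hfix : ∀ u : M, u ≠ 0 → act (.a 1) u = u → act (.xa 0) u = u →
      IsReduction 2 Dic3 (StdMod ℚ rho1) M := by
    intro u hu0 hua hux
    let ψ : (Fin 1 → ZMod 2) →+ M :=
      { toFun := fun v => v 0 • u
        map_zero' := zero_smul _ _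
        map_add' := fun _ _ => add_smul _ _ _ }
    refine reduction_of_generators rho1 M ψ ?_ ?_ ?_ ?_
    · intro v v' h
      have h' : v 0 • u = v' 0 • u := h
      funext i
      fin_cases i
      exact smul_left_injective _ hu0 h'
    · refine ⟨fun _ => 1, ?_⟩
      change (1 : ZMod 2) • u ≠ 0
      rwa [one_smul]
    · intro v
      have h : stdMat (ZMod 2) rho1 (.a 1) = 1 := stdMat_rho1 _
      rw [h, Matrix.one_mulVec]
      change v 0 • u = _ • (v 0 • u)
      rw [hcomm]
      have h' := hua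
      simp only [hact] at h'
      rw [h']
    · intro v
      have h : stdMat (ZMod 2) rho1 (.xa 0) = 1 := stdMat_rho1 _
      rw [h, Matrix.one_mulVec]
      change v 0 • u = _ • (v 0 • u)
      rw [hcomm]
      have h' := hux
      simp only [hact] at h'
      rw [h']
  by_cases hsum : w + w1 + w2 = 0
  · right
    have hw2' : w2 = - w - w1 := by
      have h : w2 = (w + w1 + w2) - w - w1 := by abel
      rw [hsum, zero_sub] at h
      exact h
    have hw10 : w1 ≠ 0 := by
      intro h
      rw [h, act_zero] at hA1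
      rw [← hA1, act_zero] at hA2
      exact hw0 hA2.symm
    have hw1w : w1 ≠ w := by
      intro h
      rw [h] at hA1 hsum
      rw [h] at hA0
      rw [hA0] at hA1
      rw [← hA1, h2, zero_add] at hsum
      exact hw0 hsum
    let ψ : (Fin 2 → ZMod 2) →+ M :=
      { toFun := fun v => v 0 • w + v 1 • w1
        map_zero' := by
          change (0 : ZMod 2) • w + (0 : ZMod 2) • w1 = 0
          rw [zero_smul, zero_smul, add_zero]
        map_add' := fun v v' => by
          change (v 0 + v' 0) • w + (v 1 + v' 1) • w1 = _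
          rw [add_smul, add_smul]
          abel }
    refine reduction_of_generators rho2 M ψ ?_ ?_ ?_ ?_
    · rw [injective_iff_map_eq_zero]
      intro v hv
      have hv' : v 0 • w + v 1 • w1 = 0 := hv
      have hcase : ∀ c : ZMod 2, c = 0 ∨ c = 1 := by decide
      rcases hcase (v 0) with h0 | h0 <;> rcases hcase (v 1) with h1 | h1 <;>
        rw [h0, h1] at hv' <;> simp only [zero_smul, one_smul, zero_add, add_zero] at hv'
      · funext i
        fin_cases i
        · exact h0
        · exact h1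
      · exact absurd hv' hw10
      · exact absurd hv' hw0
      · exfalso
        apply hw1w
        rw [← h2 w] at hv'
        exact add_left_cancel hv'
    · refine ⟨![1, 0], ?_⟩
      change (1 : ZMod 2) • w + (0 : ZMod 2) • w1 ≠ 0
      rwa [one_smul, zero_smul, add_zero]
    · intro v
      rw [stdMat_a, mA_mulVec]
      change (- v 1) • w + (v 0 - v 1) • w1 = _ • (v 0 • w + v 1 • w1)
      rw [smul_add, hcomm, hcomm]
      have h := hA0
      have h' := hA1
      simp only [hact] at h h'
      rw [h, h', hw2']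
      module
    · intro v
      rw [stdMat_x, mX_mulVec]
      change (v 0 - v 1) • w + (- v 1) • w1 = _ • (v 0 • w + v 1 • w1)
      rw [smul_add, hcomm, hcomm]
      have h := hwx
      have h' := hX1
      simp only [hact] at h h'
      rw [h, h', hw2']
      module
  · left
    refine hfix _ hsum ?_ ?_
    · rw [act_add, act_add, hA0, hA1, hA2]
      abel
    · rw [act_add, act_add, hwx, hX1, hX2]
      abel


theorem conditionN_dic : ConditionN 2 Dic3 := by
  intro P _
  have hfin : Finite (MonoidAlgebra (ZMod 2) Dic3) := by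
    have h : Finite (Dic3 →₀ ZMod 2) := inferInstance
    exact Finite.of_injective (fun x : MonoidAlgebra (ZMod 2) Dic3 => x.coeff)
      (MonoidAlgebra.coeff_injective)
  refine cls_mem_of_simple _ ?_ P
  intro M hM
  apply AddSubmonoid.subset_closure
  rcases simple_is_reduction M.carrier with h | h
  · exact ⟨StdMod ℚ rho1, inferInstance, inferInstance, inferInstance, inferInstance,
      simple_rho1, M, h, rfl⟩
  · exact ⟨StdMod ℚ rho2, inferInstance, inferInstance, inferInstance, inferInstance,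
      simple_rho2, M, h, rfl⟩

end Dic

section Cover

theorem no_projective_cover {R B : Type} [Ring R] [Ring B] (π : R →+* B)
    (hπ : Function.Surjective π)
    (hid : ∀ e : R, e * e = e → π e = 0 ∨ π e = 1) (L1 L2 : Submodule B B)
    (h1 : L1 ≠ ⊤) (h2 : L2 ≠ ⊤) (h12 : L1 ⊔ L2 = ⊤) :
    ¬ @HasProjectiveCover R (B ⧸ L1) _ _ (Module.compHom (B ⧸ L1) π) := by
  let : Module R (B ⧸ L1) := Module.compHom (B ⧸ L1) π
  have hsmul : ∀ (r : R) (x : B ⧸ L1), r • x = π r • x := fun _ _ => rfl
  have h1' : (1 : B) ∉ L1 := fun h => h1 ((Ideal.eq_top_iff_one _).2 h)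
  have h2' : (1 : B) ∉ L2 := fun h => h2 ((Ideal.eq_top_iff_one _).2 h)
  rintro ⟨P, _, _, p, hP, hps, hsup⟩
  -- the cyclic generator
  obtain ⟨x0, hx0⟩ := hps (L1.mkQ 1)
  let g : R →ₗ[R] P := LinearMap.toSpanSingleton R P x0
  have hg : ∀ r, p (g r) = L1.mkQ (π r) := by
    intro r
    change p (r • x0) = _
    rw [map_smul, hx0, hsmul, ← map_smul, smul_eq_mul, mul_one]
  have hgs : Function.Surjective g := by
    rw [← LinearMap.range_eq_top]
    apply hsup
    rw [eq_top_iff]
    intro v _
    obtain ⟨b, hb⟩ := L1.mkQ_surjective (p v)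
    obtain ⟨r, rfl⟩ := hπ b
    have hv : v = g r + (v - g r) := by abel
    rw [hv]
    refine Submodule.add_mem_sup ⟨r, rfl⟩ ?_
    rw [LinearMap.mem_ker, map_sub, hg, hb, sub_self]
  obtain ⟨h, hh⟩ := Module.projective_lifting_property g LinearMap.id hgs
  have hgh : ∀ v, g (h v) = v := fun v => by
    have := congrArg (fun f => f v) hh
    exact this
  obtain ⟨e, he⟩ : ∃ e : R, e = h (g 1) := ⟨_, rfl⟩
  have hre : ∀ r : R, h (g r) = r * e := by
    intro r
    have h3 : g r = r • g 1 := by
      rw [← map_smul, smul_eq_mul, mul_one]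
    rw [h3, map_smul, he, smul_eq_mul]
  have hge : g e = g 1 := by rw [he, hgh]
  have hee : e * e = e := by
    rw [← hre, hge, ← he]
  rcases hid e hee with h0 | h0
  · -- π e = 0
    apply h1'
    have h3 := hg e
    rw [hge, hg 1, map_one, h0, map_zero] at h3
    exact (Submodule.Quotient.mk_eq_zero L1).1 h3
  · -- π e = 1
    let N : Submodule R P :=
      { carrier := {v | π (h v) ∈ L2}
        add_mem' := by
          intro a b ha hb
          change π (h (a + b)) ∈ L2
          rw [map_add, map_add]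
          exact L2.add_mem ha hb
        zero_mem' := by
          change π (h 0) ∈ L2
          rw [map_zero, map_zero]
          exact L2.zero_mem
        smul_mem' := by
          intro r v hv
          change π (h (r • v)) ∈ L2
          rw [map_smul, smul_eq_mul, map_mul]
          exact L2.smul_mem _ hv }
    have hN : N = ⊤ := by
      apply hsup
      rw [eq_top_iff]
      intro v _
      have hb : π (h v) ∈ L1 ⊔ L2 := by rw [h12]; trivial
      obtain ⟨l1, hl1, l2, hl2, hl⟩ := Submodule.mem_sup.1 hb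
      obtain ⟨r2, hr2⟩ := hπ l2
      have hv : v = g r2 + (v - g r2) := by abel
      rw [hv]
      refine Submodule.add_mem_sup ?_ ?_
      · change π (h (g r2)) ∈ L2
        rw [hre, map_mul, h0, mul_one, hr2]
        exact hl2
      · rw [LinearMap.mem_ker, map_sub, hg, hr2]
        have h3 : p v = L1.mkQ (π (h v)) := by
          rw [← hg, hgh]
        rw [h3, ← map_sub, ← hl]
        have h4 : l1 + l2 - l2 = l1 := by abel
        rw [h4]
        exact (Submodule.Quotient.mk_eq_zero L1).2 hl1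
    apply h2'
    have h3 : g 1 ∈ N := by rw [hN]; trivial
    have h4 : π (h (g 1)) ∈ L2 := h3
    rw [← he, h0] at h4
    exact h4

open Quaternion

/-- The group homomorphism to quaternions over `ℤ` (with `i² = i - 1`, `j² = -1`). -/
def quFun : Dic3 → ℍ[ℤ,-1,1,-1]
  | .a i => ⟨0, 1, 0, 0⟩ ^ (ZMod.val i)
  | .xa i => ⟨0, 0, 1, 0⟩ * ⟨0, 1, 0, 0⟩ ^ (ZMod.val i)

instance quDecEq {K : Type} [DecidableEq K] {c₁ c₂ c₃ : K} : DecidableEq ℍ[K,c₁,c₂,c₃] := fun a b =>
  decidable_of_iff (a.re = b.re ∧ a.imI = b.imI ∧ a.imJ = b.imJ ∧ a.imK = b.imK) (by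
  constructor
  · rintro ⟨h1, h2, h3, h4⟩
    exact QuaternionAlgebra.ext h1 h2 h3 h4
  · rintro rfl
    exact ⟨rfl, rfl, rfl, rfl⟩)

set_option maxRecDepth 100000 in
theorem qu_mul : ∀ g h : Dic3, quFun (g * h) = quFun g * quFun h := by
  decide

/-- The monoid homomorphism to quaternions over `ℤ`. -/
def quHom : Dic3 →* ℍ[ℤ,-1,1,-1] where
  toFun := quFun
  map_one' := by decide
  map_mul' := qu_mul

/-- Change of coefficients. -/
def quMap {K K' : Type} [CommRing K] [CommRing K'] (f : K →+* K') :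
    ℍ[K,-1,1,-1] →+* ℍ[K',-1,1,-1] where
  toFun q := ⟨f q.re, f q.imI, f q.imJ, f q.imK⟩
  map_one' := by
    ext <;> simp
  map_mul' a b := by
    ext <;> simp
  map_zero' := by
    ext <;> simp
  map_add' a b := by
    ext <;> simp


/-- The reduction map from the quaternion order over `Z_(2)` to the quaternion algebra over
`F_2`. -/
noncomputable def piHom : MonoidAlgebra (zLoc 2) Dic3 →+* ℍ[ZMod 2,-1,1,-1] :=
  (quMap (res 2)).comp (MonoidAlgebra.lift (zLoc 2) ℍ[zLoc 2,-1,1,-1] Dic3
    (((quMap (Int.castRingHom (zLoc 2))) : ℍ[ℤ,-1,1,-1] →* ℍ[zLoc 2,-1,1,-1]).comp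
      quHom)).toRingHom

theorem piHom_of (g : Dic3) :
    piHom (MonoidAlgebra.of (zLoc 2) Dic3 g) = quMap (Int.castRingHom (ZMod 2)) (quHom g) := by
  have h : piHom (MonoidAlgebra.of (zLoc 2) Dic3 g) =
      quMap (res 2) (quMap (Int.castRingHom (zLoc 2)) (quHom g)) := by
    simp only [piHom, RingHom.comp_apply]
    congr 1
    exact MonoidAlgebra.lift_of _ _
  rw [h]
  ext <;> simp [quMap]

theorem piHom_surjective : Function.Surjective piHom := by
  intro b
  refine ⟨((b.re.val : ℕ) : MonoidAlgebra (zLoc 2) Dic3) +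
    ((b.imI.val : ℕ) : MonoidAlgebra (zLoc 2) Dic3) * MonoidAlgebra.of (zLoc 2) Dic3 (.a 1) +
    ((b.imJ.val : ℕ) : MonoidAlgebra (zLoc 2) Dic3) * MonoidAlgebra.of (zLoc 2) Dic3 (.xa 0) +
    ((b.imK.val : ℕ) : MonoidAlgebra (zLoc 2) Dic3) * MonoidAlgebra.of (zLoc 2) Dic3 (.xa 5),
    ?_⟩
  have h1 : quHom (.a 1) = ⟨0, 1, 0, 0⟩ := by decide
  have h2 : quHom (.xa 0) = ⟨0, 0, 1, 0⟩ := by decide
  have h3 : quHom (.xa 5) = ⟨0, 0, 0, 1⟩ := by decide
  rw [map_add, map_add, map_add, map_mul, map_mul, map_mul, map_natCast, map_natCast,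
    map_natCast, map_natCast, piHom_of, piHom_of, piHom_of, h1, h2, h3]
  have hc : ∀ c : ZMod 2, ((c.val : ℕ) : ℍ[ZMod 2,-1,1,-1]) = ⟨c, 0, 0, 0⟩ := by
    decide
  rw [hc, hc, hc, hc]
  ext <;> simp [quMap]

theorem quat_idem (a : ℍ[zLoc 2,-1,1,-1]) (h : a * a = a) : a = 0 ∨ a = 1 := by
  obtain ⟨x0, x1, x2, x3⟩ := a
  have e0 := congrArg QuaternionAlgebra.re h
  have e1 := congrArg QuaternionAlgebra.imI h
  have e2 := congrArg QuaternionAlgebra.imJ h
  have e3 := congrArg QuaternionAlgebra.imK h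
  simp only [QuaternionAlgebra.mk_mul_mk] at e0 e1 e2 e3
  have f0 := congrArg (fun z : zLoc 2 => (z : ℚ)) e0
  have f1 := congrArg (fun z : zLoc 2 => (z : ℚ)) e1
  have f2 := congrArg (fun z : zLoc 2 => (z : ℚ)) e2
  have f3 := congrArg (fun z : zLoc 2 => (z : ℚ)) e3
  push_cast at f0 f1 f2 f3
  have g1 : (2 * (x0 : ℚ) + x1 - 1) * x1 = 0 := by linarith
  have g2 : (2 * (x0 : ℚ) + x1 - 1) * x2 = 0 := by linarith
  have g3 : (2 * (x0 : ℚ) + x1 - 1) * x3 = 0 := by linarith
  by_cases hz : 2 * (x0 : ℚ) + x1 - 1 = 0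
  · exfalso
    have hx1 : (x1 : ℚ) = 1 - 2 * x0 := by linarith
    rw [hx1] at f0
    nlinarith [sq_nonneg ((x2 : ℚ) + x3), sq_nonneg (x2 : ℚ), sq_nonneg (x3 : ℚ),
      sq_nonneg ((x0 : ℚ) - 1 / 2)]
  · have k1 : (x1 : ℚ) = 0 := by
      rcases mul_eq_zero.1 g1 with h | h
      · exact absurd h hz
      · exact h
    have k2 : (x2 : ℚ) = 0 := by
      rcases mul_eq_zero.1 g2 with h | h
      · exact absurd h hz
      · exact h
    have k3 : (x3 : ℚ) = 0 := by
      rcases mul_eq_zero.1 g3 with h | h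
      · exact absurd h hz
      · exact h
    rw [k1, k2, k3] at f0
    have k0 : (x0 : ℚ) * (x0 - 1) = 0 := by linarith
    have l1 : x1 = 0 := Subtype.ext k1
    have l2 : x2 = 0 := Subtype.ext k2
    have l3 : x3 = 0 := Subtype.ext k3
    rcases mul_eq_zero.1 k0 with h | h
    · left
      have l0 : x0 = 0 := Subtype.ext h
      rw [l0, l1, l2, l3]
      rfl
    · right
      have l0 : x0 = 1 := Subtype.ext (by rw [sub_eq_zero] at h; exact h)
      rw [l0, l1, l2, l3]
      rfl

theorem not_semiperfect_dic : ¬ IsSemiperfect (MonoidAlgebra (zLoc 2) Dic3) := by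
  intro hS
  let f : ℍ[ZMod 2,-1,1,-1] := ⟨0, 1, 1, 0⟩
  have hf : f * f = f := by decide
  have hf0 : f ≠ 0 := by
    intro h
    have h1 := congrArg QuaternionAlgebra.imI h
    exact absurd h1 (by decide)
  have hf1 : f ≠ 1 := by
    intro h
    have h1 := congrArg QuaternionAlgebra.imI h
    exact absurd h1 (by decide)
  have hL1 : Ideal.span {f} ≠ ⊤ := by
    intro h
    have h1 : (1 : ℍ[ZMod 2,-1,1,-1]) ∈ Ideal.span {f} := by rw [h]; trivial
    obtain ⟨b, hb⟩ := Ideal.mem_span_singleton'.1 h1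
    apply hf1
    calc f = 1 * f := (one_mul f).symm
      _ = b * f * f := by rw [hb]
      _ = b * f := by rw [mul_assoc, hf]
      _ = 1 := hb
  have hL2 : Ideal.span {1 - f} ≠ ⊤ := by
    intro h
    have h1 : (1 : ℍ[ZMod 2,-1,1,-1]) ∈ Ideal.span {1 - f} := by rw [h]; trivial
    obtain ⟨b, hb⟩ := Ideal.mem_span_singleton'.1 h1
    apply hf0
    calc f = 1 * f := (one_mul f).symm
      _ = b * (1 - f) * f := by rw [hb]
      _ = b * (f - f * f) := by rw [mul_assoc, sub_mul, one_mul]
      _ = 0 := by rw [hf, sub_self, mul_zero]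
  have hL12 : (Ideal.span {f} : Submodule ℍ[ZMod 2,-1,1,-1] ℍ[ZMod 2,-1,1,-1]) ⊔
      Ideal.span {1 - f} = ⊤ := by
    rw [Ideal.eq_top_iff_one]
    have h : (1 : ℍ[ZMod 2,-1,1,-1]) = f + (1 - f) := by abel
    rw [h]
    exact Submodule.add_mem_sup (Ideal.subset_span rfl) (Ideal.subset_span rfl)
  have hid : ∀ e : MonoidAlgebra (zLoc 2) Dic3, e * e = e → piHom e = 0 ∨ piHom e = 1 := by
    intro e he
    rcases quat_idem ((MonoidAlgebra.lift (zLoc 2) ℍ[zLoc 2,-1,1,-1] Dic3
      (((quMap (Int.castRingHom (zLoc 2))) : ℍ[ℤ,-1,1,-1] →* ℍ[zLoc 2,-1,1,-1]).comp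
      quHom)) e) (by rw [← map_mul, he]) with h | h
    · left
      change quMap (res 2) _ = 0
      have h' := congrArg (quMap (res 2)) h
      rw [map_zero] at h'
      exact h'
    · right
      change quMap (res 2) _ = 1
      have h' := congrArg (quMap (res 2)) h
      rw [map_one] at h'
      exact h'
  apply no_projective_cover piHom piHom_surjective hid _ _ hL1 hL2 hL12
  let : Module (MonoidAlgebra (zLoc 2) Dic3) (ℍ[ZMod 2,-1,1,-1] ⧸ Ideal.span {f}) :=
    Module.compHom _ piHom
  have hfinB : Finite ℍ[ZMod 2,-1,1,-1] :=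
    Finite.of_injective _ (QuaternionAlgebra.equivTuple (-1 : ZMod 2) 1 (-1)).injective
  have hfinQ : Finite (ℍ[ZMod 2,-1,1,-1] ⧸ Ideal.span {f}) :=
    Finite.of_surjective _ (Ideal.span {f} : Submodule _ _).mkQ_surjective
  exact hS _ Module.Finite.of_finite

end Cover

/-- **Negative answer to Q1.** For the dicyclic group `G = C_3 ⋊ C_4` of order 12 and `p = 2`,
condition (N) holds, but `Z_(2)G` is not semiperfect. -/
theorem result :
    ConditionN 2 (QuaternionGroup 3) ∧
      ¬ IsSemiperfect (MonoidAlgebra (zLoc 2) (QuaternionGroup 3)) :=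
  ⟨conditionN_dic, not_semiperfect_dic⟩

end Pool.Agent.Results.MP_70eb0a_al.DicyclicCounterexample
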